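import Mathlib

/-!
# Bernoulli convolutions and the approximating densities
-/

set_option autoImplicit false

namespace Pool.Agent.Q168.BC

open MeasureTheory Filter Topology Set

/-- the uniform probability measure on `{0, 1}` (the digits `0` and `1` are `false` and `true`) -/
noncomputable def coin : Measure Bool := (PMF.uniformOfFintype Bool).toMeasure

instance : IsProbabilityMeasure coin := PMF.toMeasure.isProbabilityMeasure _

/-- the digit `0` or `1` as a real number -/
def digit (b : Bool) : ℝ := if b then 1 else 0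

/-- the sum `∑_{k ≥ 1} a_k β^{-k}` -/
noncomputable def sumDigits (β : ℝ) (a : ℕ → Bool) : ℝ := ∑' k : ℕ, digit (a k) * β⁻¹ ^ (k + 1)

/-- the Bernoulli convolution `ν_β`: the law of `∑_{k ≥ 1} a_k β^{-k}` for independent uniform
digits `a_k ∈ {0, 1}` -/
noncomputable def nu (β : ℝ) : Measure ℝ :=
  (Measure.infinitePi (fun _ : ℕ => coin)).map (sumDigits β)

/-- the interval `I_β = [0, 1/(β-1)]` -/
def interval (β : ℝ) : Set ℝ := Set.Icc 0 (1 / (β - 1))

/-- the densities `f_n` -/
noncomputable def dens (β : ℝ) : ℕ → ℝ → ℝ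
  | 0 => (interval β).indicator (fun _ => β - 1)
  | n + 1 => (interval β).indicator
      (fun x => β / 2 * (dens β n (β * x) + dens β n (β * x - 1)))

open Classical in
theorem coin_apply (s : Set Bool) : coin s =
    (1 / 2) * (if false ∈ s then 1 else 0) + (1 / 2) * (if true ∈ s then 1 else 0) := by
  unfold coin
  rw [PMF.toMeasure_apply _ MeasurableSet.of_discrete, tsum_fintype]
  simp only [Fintype.sum_bool, Set.indicator_apply, PMF.uniformOfFintype_apply, Fintype.card_bool]
  rw [add_comm]
  congr 1 <;> split_ifs <;> simp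

/-- prepend a digit -/
def cons (b : Bool) (a : ℕ → Bool) : ℕ → Bool
  | 0 => b
  | n + 1 => a n

theorem measurable_cons (b : Bool) : Measurable (cons b) := by
  rw [measurable_pi_iff]
  intro n
  cases n with
  | zero => exact measurable_const
  | succ n => exact measurable_pi_apply n

theorem infinitePi_eq : Measure.infinitePi (fun _ : ℕ => coin) =
    (1 / 2 : ENNReal) • (Measure.infinitePi (fun _ : ℕ => coin)).map (cons false) +
    (1 / 2 : ENNReal) • (Measure.infinitePi (fun _ : ℕ => coin)).map (cons true) := by
  classical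
  symm
  refine Measure.eq_infinitePi _ ?_
  intro s t ht
  -- replace `s` by an initial segment
  obtain ⟨n, hn⟩ : ∃ n, s ⊆ Finset.range (n + 1) := by
    obtain ⟨n, hn⟩ := s.exists_nat_subset_range
    exact ⟨n, hn.trans (Finset.range_subset_range.2 (Nat.le_succ n))⟩
  obtain ⟨t', ht'⟩ : ∃ t' : ℕ → Set Bool, t' = fun i => if i ∈ s then t i else Set.univ := ⟨_, rfl⟩
  have hpi : Set.pi (s : Set ℕ) t = Set.pi (Finset.range (n + 1) : Set ℕ) t' := by
    ext a
    simp only [Set.mem_pi, Finset.mem_coe, ht']
    constructor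
    · intro h i _
      split_ifs with his
      · exact h i his
      · trivial
    · intro h i his
      have := h i (hn his)
      rwa [if_pos his] at this
  have hprod : ∏ i ∈ s, coin (t i) = ∏ i ∈ Finset.range (n + 1), coin (t' i) := by
    rw [← Finset.prod_subset hn]
    · refine Finset.prod_congr rfl fun i hi => ?_
      rw [ht']
      simp only
      rw [if_pos hi]
    · intro i _ his
      rw [ht']
      simp only
      rw [if_neg his, measure_univ]
  have hpre : ∀ b : Bool, (Measure.infinitePi (fun _ : ℕ => coin)).map (cons b)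
      (Set.pi (Finset.range (n + 1) : Set ℕ) t') =
      (if b ∈ t' 0 then 1 else 0) * ∏ i ∈ Finset.range n, coin (t' (i + 1)) := by
    intro b
    rw [Measure.map_apply (measurable_cons b)
      (MeasurableSet.pi (Finset.countable_toSet _) (fun i _ => by measurability))]
    by_cases hb : b ∈ t' 0
    · have : cons b ⁻¹' (Set.pi (Finset.range (n + 1) : Set ℕ) t') =
          Set.pi (Finset.range n : Set ℕ) (fun i => t' (i + 1)) := by
        ext a
        simp only [Set.mem_preimage, Set.mem_pi, Finset.coe_range, Set.mem_Iio]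
        constructor
        · intro h i hi
          exact h (i + 1) (by omega)
        · intro h i hi
          cases i with
          | zero => exact hb
          | succ i => exact h i (by omega)
      rw [this, Measure.infinitePi_pi _ (fun i _ => by measurability), if_pos hb, one_mul]
    · have : cons b ⁻¹' (Set.pi (Finset.range (n + 1) : Set ℕ) t') = ∅ := by
        ext a
        simp only [Set.mem_preimage, Set.mem_pi, Finset.coe_range, Set.mem_Iio,
          Set.mem_empty_iff_false, iff_false]
        intro h
        exact hb (h 0 (by omega))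
      rw [this, measure_empty, if_neg hb, zero_mul]
  rw [hpi, hprod, Measure.add_apply, Measure.smul_apply, Measure.smul_apply, hpre, hpre,
    Finset.prod_range_succ', coin_apply (t' 0)]
  simp only [smul_eq_mul]
  ring

theorem summable_digits {β : ℝ} (hβ : 1 < β) (a : ℕ → Bool) :
    Summable fun k : ℕ => digit (a k) * β⁻¹ ^ (k + 1) := by
  have h1 : β⁻¹ < 1 := inv_lt_one_of_one_lt₀ hβ
  have h0 : 0 ≤ β⁻¹ := by positivity
  have hg : Summable fun k : ℕ => β⁻¹ ^ (k + 1) :=
    (summable_nat_add_iff 1).2 (summable_geometric_of_lt_one h0 h1)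
  refine Summable.of_nonneg_of_le (fun k => ?_) (fun k => ?_) hg
  · unfold digit
    split_ifs <;> positivity
  · unfold digit
    split_ifs
    · simp
    · simp
      positivity

theorem continuous_sumDigits {β : ℝ} (hβ : 1 < β) : Continuous (sumDigits β) := by
  have h1 : β⁻¹ < 1 := inv_lt_one_of_one_lt₀ hβ
  have h0 : 0 ≤ β⁻¹ := by positivity
  have hg : Summable fun k : ℕ => β⁻¹ ^ (k + 1) :=
    (summable_nat_add_iff 1).2 (summable_geometric_of_lt_one h0 h1)
  refine continuous_tsum (fun k => ?_) hg (fun k a => ?_)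
  · have : Continuous digit := continuous_of_discreteTopology
    exact (this.comp (continuous_apply k)).mul continuous_const
  · unfold digit
    split_ifs
    · rw [one_mul, Real.norm_eq_abs, abs_of_nonneg (by positivity)]
    · rw [zero_mul, norm_zero]
      positivity

theorem sumDigits_cons {β : ℝ} (hβ : 1 < β) (b : Bool) (a : ℕ → Bool) :
    sumDigits β (cons b a) = (digit b + sumDigits β a) / β := by
  unfold sumDigits
  rw [(summable_digits hβ (cons b a)).tsum_eq_zero_add]
  have : ∀ k, digit (cons b a (k + 1)) * β⁻¹ ^ (k + 1 + 1) =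
      (digit (a k) * β⁻¹ ^ (k + 1)) * β⁻¹ := fun k => by
    show digit (a k) * β⁻¹ ^ (k + 1 + 1) = _
    ring
  simp only [this]
  rw [tsum_mul_right]
  have hc0 : cons b a 0 = b := rfl
  rw [hc0]
  simp only [zero_add, pow_one]
  rw [add_div, div_eq_mul_inv, div_eq_mul_inv]

theorem sumDigits_mem {β : ℝ} (hβ : 1 < β) (a : ℕ → Bool) : sumDigits β a ∈ interval β := by
  have h1 : β⁻¹ < 1 := inv_lt_one_of_one_lt₀ hβ
  have h0 : 0 ≤ β⁻¹ := by positivity
  have hg : Summable fun k : ℕ => β⁻¹ ^ (k + 1) :=
    (summable_nat_add_iff 1).2 (summable_geometric_of_lt_one h0 h1)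
  have hd : ∀ k, 0 ≤ digit (a k) * β⁻¹ ^ (k + 1) := fun k => by
    unfold digit
    split_ifs <;> positivity
  refine ⟨tsum_nonneg hd, ?_⟩
  have hsum : ∑' k : ℕ, β⁻¹ ^ (k + 1) = 1 / (β - 1) := by
    have : ∀ k : ℕ, β⁻¹ ^ (k + 1) = β⁻¹ ^ k * β⁻¹ := fun k => pow_succ _ _
    simp only [this]
    rw [tsum_mul_right, tsum_geometric_of_lt_one h0 h1]
    have : β - 1 ≠ 0 := by linarith
    have : β ≠ 0 := by linarith
    field_simp
  rw [← hsum]
  refine (summable_digits hβ a).tsum_le_tsum (fun k => ?_) hg
  unfold digit
  split_ifs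
  · simp
  · simp
    positivity

end Pool.Agent.Q168.BC
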