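import Pool.Agent.Q168.BC.Basic

/-!
# The densities are controlled by the Bernoulli convolution of small balls
-/

set_option autoImplicit false

namespace Pool.Agent.Q168.BC

open MeasureTheory Filter Topology Set

theorem measurable_sumDigits {β : ℝ} (hβ : 1 < β) : Measurable (sumDigits β) :=
  (continuous_sumDigits hβ).measurable

theorem isProbabilityMeasure_nu {β : ℝ} (hβ : 1 < β) : IsProbabilityMeasure (nu β) :=
  Measure.isProbabilityMeasure_map (measurable_sumDigits hβ).aemeasurable

theorem nu_interval {β : ℝ} (hβ : 1 < β) : nu β (interval β) = 1 := by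
  have h : MeasurableSet (interval β) := measurableSet_Icc
  rw [nu, Measure.map_apply (measurable_sumDigits hβ) h]
  have : sumDigits β ⁻¹' interval β = Set.univ := by
    ext a
    simp [sumDigits_mem hβ a]
  rw [this, measure_univ]

/-- self-similarity: `ν_β = ½ (ν_β ∘ T_0 + ν_β ∘ T_1)` -/
theorem nu_selfSimilar {β : ℝ} (hβ : 1 < β) {A B C : Set ℝ} (hA : MeasurableSet A)
    (hB : MeasurableSet B) (hC : MeasurableSet C)
    (h0 : ∀ y, y / β ∈ A ↔ y ∈ B) (h1 : ∀ y, (1 + y) / β ∈ A ↔ y ∈ C) :
    nu β A = (1 / 2) * nu β B + (1 / 2) * nu β C := by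
  have hm := measurable_sumDigits hβ
  rw [nu, Measure.map_apply hm hA, Measure.map_apply hm hB, Measure.map_apply hm hC]
  conv_lhs => rw [infinitePi_eq]
  rw [Measure.add_apply, Measure.smul_apply, Measure.smul_apply,
    Measure.map_apply (measurable_cons _) (hm hA), Measure.map_apply (measurable_cons _) (hm hA)]
  have e0 : cons false ⁻¹' (sumDigits β ⁻¹' A) = sumDigits β ⁻¹' B := by
    ext a
    simp only [Set.mem_preimage, sumDigits_cons hβ]
    rw [← h0]
    simp [digit]
  have e1 : cons true ⁻¹' (sumDigits β ⁻¹' A) = sumDigits β ⁻¹' C := by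
    ext a
    simp only [Set.mem_preimage, sumDigits_cons hβ]
    rw [← h1]
    simp [digit]
  rw [e0, e1]
  rfl

/-- the radii `β^{-n} / (β - 1)` -/
noncomputable def rad (β : ℝ) (n : ℕ) : ℝ := 1 / (β - 1) / β ^ n

theorem rad_pos {β : ℝ} (hβ : 1 < β) (n : ℕ) : 0 < rad β n := by
  unfold rad
  have : 0 < β - 1 := by linarith
  positivity

theorem dens_nonneg {β : ℝ} (hβ : 1 < β) (n : ℕ) (x : ℝ) : 0 ≤ dens β n x := by
  induction n generalizing x with
  | zero =>
    show 0 ≤ (interval β).indicator (fun _ => β - 1) x
    exact Set.indicator_nonneg (fun _ _ => by linarith) _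
  | succ n ih =>
    show 0 ≤ (interval β).indicator (fun x => β / 2 * (dens β n (β * x) + dens β n (β * x - 1))) x
    refine Set.indicator_nonneg (fun y _ => ?_) _
    have := ih (β * y)
    have := ih (β * y - 1)
    positivity

/-- the key inequality -/
theorem dens_le {β : ℝ} (hβ : 1 < β) (n : ℕ) (x : ℝ) :
    dens β n x * rad β n ≤ (nu β).real (Metric.closedBall x (rad β n)) := by
  have hpr := isProbabilityMeasure_nu hβ
  have hβ1 : 0 < β - 1 := by linarith
  have hβ0 : 0 < β := by linarith
  induction n generalizing x with
  | zero =>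
    show (interval β).indicator (fun _ => β - 1) x * rad β 0 ≤ _
    by_cases hx : x ∈ interval β
    · rw [Set.indicator_of_mem hx]
      have h1 : (β - 1) * rad β 0 = 1 := by
        unfold rad
        field_simp
      rw [h1]
      have h2 : interval β ⊆ Metric.closedBall x (rad β 0) := by
        intro y hy
        rw [Metric.mem_closedBall, Real.dist_eq, abs_le]
        unfold rad interval at *
        simp only [pow_zero, div_one]
        constructor <;> linarith [hx.1, hx.2, hy.1, hy.2]
      have h3 : (nu β).real (interval β) ≤ (nu β).real (Metric.closedBall x (rad β 0)) :=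
        measureReal_mono h2
      rw [measureReal_def, nu_interval hβ] at h3
      simpa using h3
    · rw [Set.indicator_of_notMem hx, zero_mul]
      exact measureReal_nonneg
  | succ n ih =>
    have hr : rad β (n + 1) = rad β n / β := by
      unfold rad
      rw [pow_succ]
      field_simp
    have hle : dens β (n + 1) x ≤ β / 2 * (dens β n (β * x) + dens β n (β * x - 1)) := by
      show (interval β).indicator (fun x => β / 2 * (dens β n (β * x) + dens β n (β * x - 1))) x ≤ _
      refine Set.indicator_le_self' (fun y _ => ?_) x
      have := dens_nonneg hβ n (β * y)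
      have := dens_nonneg hβ n (β * y - 1)
      positivity
    have hself := nu_selfSimilar hβ (A := Metric.closedBall x (rad β (n + 1)))
      (B := Metric.closedBall (β * x) (rad β n)) (C := Metric.closedBall (β * x - 1) (rad β n))
      Metric.isClosed_closedBall.measurableSet Metric.isClosed_closedBall.measurableSet
      Metric.isClosed_closedBall.measurableSet
      (fun y => by
        rw [Metric.mem_closedBall, Metric.mem_closedBall, Real.dist_eq, Real.dist_eq, hr,
          le_div_iff₀ hβ0]
        have : |y / β - x| * β = |y - β * x| := by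
          rw [← abs_of_pos hβ0, ← abs_mul, abs_of_pos hβ0]
          congr 1
          field_simp
        rw [this])
      (fun y => by
        rw [Metric.mem_closedBall, Metric.mem_closedBall, Real.dist_eq, Real.dist_eq, hr,
          le_div_iff₀ hβ0]
        have : |(1 + y) / β - x| * β = |y - (β * x - 1)| := by
          rw [← abs_of_pos hβ0, ← abs_mul, abs_of_pos hβ0]
          congr 1
          field_simp
          ring
        rw [this])
    have hreal : (nu β).real (Metric.closedBall x (rad β (n + 1))) =
        1 / 2 * (nu β).real (Metric.closedBall (β * x) (rad β n)) +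
        1 / 2 * (nu β).real (Metric.closedBall (β * x - 1) (rad β n)) := by
      simp only [measureReal_def]
      rw [hself, ENNReal.toReal_add (by finiteness) (by finiteness), ENNReal.toReal_mul,
        ENNReal.toReal_mul]
      simp
    rw [hreal]
    have hrp := rad_pos hβ n
    have i0 := ih (β * x)
    have i1 := ih (β * x - 1)
    calc dens β (n + 1) x * rad β (n + 1)
        ≤ β / 2 * (dens β n (β * x) + dens β n (β * x - 1)) * rad β (n + 1) :=
          mul_le_mul_of_nonneg_right hle (rad_pos hβ _).le
      _ = 1 / 2 * (dens β n (β * x) * rad β n) + 1 / 2 * (dens β n (β * x - 1) * rad β n) := by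
          rw [hr]
          field_simp
      _ ≤ _ := by linarith

theorem tendsto_rad {β : ℝ} (hβ : 1 < β) : Tendsto (rad β) atTop (𝓝[>] 0) := by
  rw [tendsto_nhdsWithin_iff]
  refine ⟨?_, Eventually.of_forall fun n => rad_pos hβ n⟩
  unfold rad
  exact tendsto_const_nhds.div_atTop (tendsto_pow_atTop_atTop_of_one_lt hβ)

theorem main {β : ℝ} (hβ : 1 < β) (hs : nu β ⟂ₘ volume) :
    ∀ᵐ x, Tendsto (fun n => dens β n x) atTop (𝓝 0) := by
  have hpr := isProbabilityMeasure_nu hβ
  filter_upwards [Besicovitch.ae_tendsto_rnDeriv (nu β) volume,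
    (Measure.rnDeriv_eq_zero (nu β) volume).2 hs] with x hx h0
  rw [show (nu β).rnDeriv volume x = 0 from h0] at hx
  have h1 := hx.comp (tendsto_rad hβ)
  have h2 : Tendsto (fun n => ((nu β (Metric.closedBall x (rad β n)) /
      volume (Metric.closedBall x (rad β n))).toReal)) atTop (𝓝 0) := by
    have := (ENNReal.tendsto_toReal (a := (0 : ENNReal)) (by simp)).comp h1
    rw [ENNReal.toReal_zero] at this
    exact this
  have h3 : Tendsto (fun n => 2 * ((nu β (Metric.closedBall x (rad β n)) /
      volume (Metric.closedBall x (rad β n))).toReal)) atTop (𝓝 0) := by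
    simpa using h2.const_mul 2
  refine squeeze_zero (fun n => dens_nonneg hβ n x) (fun n => ?_) h3
  have hr := rad_pos hβ n
  rw [ENNReal.toReal_div, Real.volume_closedBall, ENNReal.toReal_ofReal (by positivity)]
  have := dens_le hβ n x
  rw [measureReal_def] at this
  rw [← mul_div_assoc, le_div_iff₀ (by positivity)]
  nlinarith

end Pool.Agent.Q168.BC
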